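import Pool.Agent.helper32.EX.SpecA

/-!
# Row `ex:SGN`: a root is positive or negative
-/

set_option autoImplicit false

namespace Pool.Agent.EX

/-- vectors with disjoint supports and nonnegative coordinates are at an obtuse angle -/
theorem SGN_Q_nonpos {n : ℕ} {C : Matrix (Fin n) (Fin n) ℤ} [hC : Fact (Dyn C)] (a b : Fin n → ℤ)
    (ha : ∀ i, 0 ≤ a i) (hb : ∀ i, 0 ≤ b i) (h0 : ∀ i, a i * b i = 0) : Q C a b ≤ 0 := by
  unfold Q
  refine Finset.sum_nonpos fun i _ => Finset.sum_nonpos fun j _ => ?_
  by_cases hij : i = j
  · subst hij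
    have h1 : a i * C i i * b i = C i i * (a i * b i) := by ring
    rw [h1, h0 i, mul_zero]
  · have h1 : C i j ≤ 0 := by
      rcases hC.out.off i j hij with h | h
      · omega
      · omega
    have h2 : 0 ≤ a i * b j := mul_nonneg (ha i) (hb j)
    have h3 : a i * C i j * b j = C i j * (a i * b j) := by ring
    rw [h3]
    exact mul_nonpos_of_nonpos_of_nonneg h1 h2

/-- a nonzero vector has norm at least `2` -/
theorem SGN_two_le {n : ℕ} {C : Matrix (Fin n) (Fin n) ℤ} [hC : Fact (Dyn C)] (v : Fin n → ℤ) (h : v ≠ 0) :
    2 ≤ Q C v v := by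
  have h1 := hC.out.pos v h
  have h2 := ee_self (C := C) v
  omega

/-- Row `ex:SGN`. -/
theorem SGN : SGN_stmt := by
  intro n C _ α
  let a : Fin n → ℤ := fun i => max (α.1 i) 0
  let b : Fin n → ℤ := fun i => max (-(α.1 i)) 0
  have hab : α.1 = a - b := by
    funext i
    simp only [a, b, Pi.sub_apply]
    omega
  have h1 : Q C a b ≤ 0 := by
    refine SGN_Q_nonpos a b (fun i => le_max_right _ _) (fun i => le_max_right _ _) fun i => ?_
    rcases le_total 0 (α.1 i) with h | h
    · have h2 : b i = 0 := by
        simp only [b]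
        omega
      rw [h2, mul_zero]
    · have h2 : a i = 0 := by
        simp only [a]
        omega
      rw [h2, zero_mul]
  by_cases ha : a = 0
  · right
    intro i
    have h2 := congrFun ha i
    simp only [a, Pi.zero_apply] at h2
    rw [neg_val, Pi.neg_apply]
    omega
  · by_cases hb : b = 0
    · left
      intro i
      have h2 := congrFun hb i
      simp only [b, Pi.zero_apply] at h2
      omega
    · exfalso
      have h2 := SGN_two_le (C := C) a ha
      have h3 := SGN_two_le (C := C) b hb
      have h4 := α.2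
      rw [hab, Q_sub_left, Q_sub_right, Q_sub_right, Q_comm b a] at h4
      omega

end Pool.Agent.EX
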