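import Pool.Agent.helper32.EX.SpecD

/-!
# Row `ex:UFA`: `U = U_i X_i`
-/

set_option autoImplicit false

namespace Pool.Agent.EX

/-- Row `ex:UFA`. -/
theorem UFA (hUIN : UIN_stmt) : UFA_stmt := by
  intro n C _ F _ i u hu
  unfold UU at hu
  refine Subgroup.closure_induction
    (p := fun u _ => ∃ u' ∈ UI C F i, ∃ t : F, u = u' * xl (sm C i) t) ?_ ?_ ?_ ?_ hu
  · rintro g ⟨α, t, hα, rfl⟩
    by_cases h : α = sm C i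
    · refine ⟨1, one_mem _, t, ?_⟩
      rw [h, one_mul]
    · refine ⟨xl α t, Subgroup.subset_closure ⟨α, t, hα, h, rfl⟩, 0, ?_⟩
      rw [xl_zero, mul_one]
  · exact ⟨1, one_mem _, 0, by rw [xl_zero, mul_one]⟩
  · rintro _ _ _ _ ⟨u₁, h₁, s, rfl⟩ ⟨v₁, h₂, t, rfl⟩
    refine ⟨u₁ * (xl (sm C i) s * v₁ * (xl (sm C i) s)⁻¹), mul_mem h₁ (hUIN C F i s v₁ h₂).1, s + t, ?_⟩
    rw [xl_add]
    group
  · rintro _ _ ⟨u₁, h₁, s, rfl⟩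
    refine ⟨xl (sm C i) (-s) * u₁⁻¹ * (xl (sm C i) (-s))⁻¹, (hUIN C F i (-s) u₁⁻¹ (inv_mem h₁)).1, -s, ?_⟩
    rw [xl_neg]
    group

end Pool.Agent.EX
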